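import Pool.Agent.Results.MP_e3c312_co.CuspSymmetry

set_option autoImplicit false
set_option maxHeartbeats 1000000

namespace Run7.h114.CuspFrozen

open Pool.Agent.Results.MP_e3c312_co.CuspSymmetry
open scoped Topology

/-- congruence of placements -/
abbrev rel (q q' : Fin 7 → EuclideanSpace ℝ (Fin 3)) : Prop :=
  ∃ T : EuclideanSpace ℝ (Fin 3) ≃ᵢ EuclideanSpace ℝ (Fin 3), ∀ i, T (q i) = q' i

theorem rel_equiv : Equivalence rel where
  refl := fun q => ⟨IsometryEquiv.refl _, fun _ => rfl⟩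
  symm := by
    rintro q q' ⟨T, h⟩
    exact ⟨T.symm, fun i => by rw [← h i, T.symm_apply_apply]⟩
  trans := by
    rintro q q' q'' ⟨T, h⟩ ⟨T', h'⟩
    exact ⟨T.trans T', fun i => by rw [← h' i, ← h i]; rfl⟩

theorem mk_eq_iff {q q' : Fin 7 → EuclideanSpace ℝ (Fin 3)} :
    Quot.mk rel q = Quot.mk rel q' ↔ rel q q' := by
  rw [Quot.eq, Equivalence.eqvGen_iff rel_equiv]

/-- the local conditions -/
def NearP (q : Fin 7 → E 3) : Prop :=
  0 < dist (q 1) (q 2) ∧ dist (q 1) (q 2) ^ 2 < 8 ∧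
    |dist (q 3) (q 4) ^ 2 - 25| < 12 / 100 ∧ dist (q 3) (q 5) ^ 2 < 5661

theorem nearP_congr {q q' : Fin 7 → E 3} (h : rel q q') (hq : NearP q) : NearP q' := by
  obtain ⟨T, hT⟩ := h
  unfold NearP at *
  rw [← hT 1, ← hT 2, ← hT 3, ← hT 4, ← hT 5, T.dist_eq, T.dist_eq, T.dist_eq]
  exact hq

theorem continuous_evalP (i : Fin 7) : Continuous fun q : Fin 7 → E 3 => q i :=
  continuous_apply i

theorem nearP_isOpen : IsOpen {q : Fin 7 → E 3 | NearP q} := by
  have c12 := (continuous_evalP 1).dist (continuous_evalP 2)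
  have c34 := (continuous_evalP 3).dist (continuous_evalP 4)
  have c35 := (continuous_evalP 3).dist (continuous_evalP 5)
  refine (isOpen_lt continuous_const c12).inter ((isOpen_lt (c12.pow 2) continuous_const).inter
    ((isOpen_lt ((c34.pow 2).sub continuous_const).abs continuous_const).inter
      (isOpen_lt (c35.pow 2) continuous_const)))

theorem nearP_std {x : ℝ} (hx : x ∈ Dom) : NearP (std x) := by
  obtain ⟨h12, h34, h35, _, _, _, _⟩ := (rel_std hx).nonedges
  have hX := dom_X hx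
  have hX0 : 0 ≤ x ^ 2 := sq_nonneg x
  have hr := rel_std hx
  have hz0 := hr.z0
  have hz := hr.hz
  have hP := hr.hP
  change dist (std x 1) (std x 2) ^ 2 = _ at h12
  change dist (std x 3) (std x 4) ^ 2 = _ at h34
  change dist (std x 3) (std x 5) ^ 2 = _ at h35
  refine ⟨?_, ?_, ?_, ?_⟩
  · have : dist (std x 1) (std x 2) ≠ 0 := by
      intro h
      rw [h] at h12
      nlinarith [pow_pos hz0 2]
    positivity
  · rw [h12]
    have h1 : fz (x ^ 2) ^ 2 * (16 + 6 * x ^ 2 - (x ^ 2) ^ 2) =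
        16 + 12 * x ^ 2 - 2 * (x ^ 2) ^ 2 := by rw [← hP]; exact hz
    have h2 := q_pos hX0 hX
    by_contra hcon
    push Not at hcon
    nlinarith
  · rw [h34, abs_lt]
    constructor <;> nlinarith
  · rw [h35]
    nlinarith

/-- the curve of classes -/
noncomputable def curveQ (y : Set.Ioo (0 : ℝ) 1) : Quot rel := Quot.mk rel (std ((2 * (y : ℝ) - 1) / 10))

theorem dom_scaleQ (y : Set.Ioo (0 : ℝ) 1) : (2 * (y : ℝ) - 1) / 10 ∈ Dom := by
  obtain ⟨y, h1, h2⟩ := y
  constructor <;> simp only <;> linarith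

theorem curveQ_continuous : Continuous curveQ := by
  unfold curveQ
  refine continuous_quot_mk.comp ?_
  refine cont_std.comp_continuous (by fun_prop) ?_
  exact fun y => dom_scaleQ y

/-- the invariant `|m N'|^2 - |m N|^2` -/
noncomputable def invP (q : Fin 7 → E 3) : ℝ := dist (q 2) (q 6) ^ 2 - dist (q 1) (q 6) ^ 2

theorem invP_congr (q q' : Fin 7 → E 3) (h : rel q q') : invP q = invP q' := by
  obtain ⟨T, hT⟩ := h
  unfold invP
  rw [← hT 1, ← hT 2, ← hT 6, T.dist_eq, T.dist_eq]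

theorem invP_continuous : Continuous invP := by
  unfold invP
  exact (((continuous_evalP 2).dist (continuous_evalP 6)).pow 2).sub
    (((continuous_evalP 1).dist (continuous_evalP 6)).pow 2)

/-- the invariant on the quotient -/
noncomputable def invQ : Quot rel → ℝ := Quot.lift invP invP_congr

theorem invQ_continuous : Continuous invQ := continuous_quot_lift _ invP_continuous

theorem invP_std {x : ℝ} (hx : x ∈ Dom) : invP (std x) = 4 * fh x := inv_std hx

theorem invQ_curve (y : Set.Ioo (0 : ℝ) 1) : invQ (curveQ y) = 4 * fh ((2 * (y : ℝ) - 1) / 10) :=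
  invP_std (dom_scaleQ y)

theorem curveQ_isEmbedding : Topology.IsEmbedding curveQ := by
  refine Topology.IsEmbedding.of_comp curveQ_continuous invQ_continuous ?_
  have hc : Continuous (invQ ∘ curveQ) := invQ_continuous.comp curveQ_continuous
  have hm : StrictMono (invQ ∘ curveQ) := by
    intro y y' h
    simp only [Function.comp, invQ_curve]
    have h' : (2 * (y : ℝ) - 1) / 10 < (2 * (y' : ℝ) - 1) / 10 := by
      have : (y : ℝ) < y' := h
      linarith
    have := fh_strictMono (dom_scaleQ y) (dom_scaleQ y') h'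
    linarith
  refine hm.isEmbedding_of_ordConnected ?_
  have : PreconnectedSpace (Set.Ioo (0 : ℝ) 1) :=
    Subtype.preconnectedSpace isPreconnected_Ioo
  exact (isPreconnected_range hc).ordConnected

/-- the open set -/
def OO : Set (Quot rel) := Quot.mk rel '' {q | NearP q}

theorem OO_isOpen : IsOpen OO := by
  refine (isQuotientMap_quot_mk (r := rel)).isOpen_preimage.1 ?_
  convert nearP_isOpen using 1
  ext q
  constructor
  · rintro ⟨q', hq', h⟩
    exact nearP_congr (mk_eq_iff.1 h) hq'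
  · intro hq
    exact ⟨q, hq, rfl⟩

theorem range_eq : OO ∩ {x : Quot rel | ∃ q : Fin 7 → E 3, Quot.mk rel q = x ∧
    ∀ i j, G7.Adj i j → dist (q i) (q j) = dist (p7 i) (p7 j)} = Set.range curveQ := by
  ext c
  constructor
  · rintro ⟨⟨q', hq', rfl⟩, ⟨q, hq, hd⟩⟩
    obtain ⟨h1, h2, h3, h4⟩ := nearP_congr (rel_equiv.symm (mk_eq_iff.1 hq)) hq'
    obtain ⟨T, x, hx, hT⟩ := local_unique q hd h1 h2 h3 h4
    have hx10 : (10 * x + 1) / 2 ∈ Set.Ioo (0 : ℝ) 1 := by
      obtain ⟨a, b⟩ := hx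
      constructor <;> linarith
    refine ⟨⟨(10 * x + 1) / 2, hx10⟩, ?_⟩
    rw [← hq]
    unfold curveQ
    refine (mk_eq_iff.2 ?_).symm
    refine ⟨T, fun i => ?_⟩
    rw [hT i]
    congr 1
    simp only
    ring
  · rintro ⟨y, rfl⟩
    exact ⟨⟨_, nearP_std (dom_scaleQ y), rfl⟩, ⟨_, rfl, std_mem (dom_scaleQ y)⟩⟩

/-- the homeomorphism -/
noncomputable def hh : ↥(OO ∩ {x : Quot rel | ∃ q : Fin 7 → E 3, Quot.mk rel q = x ∧
    ∀ i j, G7.Adj i j → dist (q i) (q j) = dist (p7 i) (p7 j)}) ≃ₜ ↥(Set.Ioo (0:ℝ) 1) :=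
  (Homeomorph.setCongr range_eq).trans curveQ_isEmbedding.toHomeomorph.symm

theorem hh_symm (y : Set.Ioo (0 : ℝ) 1) : (hh.symm y).1 = curveQ y := rfl

/-- the group as a subgroup of the isometry group -/
def Gam' : Subgroup (EuclideanSpace ℝ (Fin 3) ≃ᵢ EuclideanSpace ℝ (Fin 3)) := Gam

/-- the homomorphism to the permutations -/
noncomputable def theta' : Gam' →* Equiv.Perm (Fin 7) where
  toFun g := RelIso.toEquiv (theta g)
  map_one' := by
    have : theta (1 : Gam) = 1 := map_one theta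
    show RelIso.toEquiv (theta (1 : Gam)) = 1
    rw [this]
    rfl
  map_mul' a b := by
    have : theta (show Gam from a * b) = theta (show Gam from a) * theta (show Gam from b) :=
      map_mul theta _ _
    show RelIso.toEquiv (theta (show Gam from a * b)) = _
    rw [this]
    rfl

theorem tdom {t : ℝ} (ht : t ∈ Set.Icc (0 : ℝ) 1) : t / 20 ∈ Dom := by
  obtain ⟨h0, h1⟩ := ht
  constructor <;> linarith

theorem main (H : ∀ (d : ℕ) (V : Type) [Fintype V] (G : SimpleGraph V) (p : V → EuclideanSpace ℝ (Fin d))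
    (Γ : Subgroup (EuclideanSpace ℝ (Fin d) ≃ᵢ EuclideanSpace ℝ (Fin d))) [Finite Γ]
    (θ : Γ →* Equiv.Perm V),
    (∀ γ : Γ, ∀ u v : V, G.Adj u v ↔ G.Adj (θ γ u) (θ γ v)) →
    (∀ γ : Γ, ∀ i : V,
      (γ : EuclideanSpace ℝ (Fin d) ≃ᵢ EuclideanSpace ℝ (Fin d)) (p i) = p (θ γ i)) →
    ∀ m : ℝ → V → EuclideanSpace ℝ (Fin d),
      ContinuousOn m (Set.Icc 0 1) → m 0 = p →
      (∀ t ∈ Set.Icc (0:ℝ) 1, ∀ i j : V, G.Adj i j → dist (m t i) (m t j) = dist (p i) (p j)) →
      (∀ i j : V, MonotoneOn (fun t => dist (m t i) (m t j)) (Set.Icc (0:ℝ) 1)) →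
      (∃ t ∈ Set.Icc (0:ℝ) 1, ∃ i j : V, dist (m t i) (m t j) ≠ dist (p i) (p j)) →
      Set.InjOn (fun t => Quot.mk (fun q q' : V → EuclideanSpace ℝ (Fin d) =>
          ∃ T : EuclideanSpace ℝ (Fin d) ≃ᵢ EuclideanSpace ℝ (Fin d), ∀ i, T (q i) = q' i) (m t))
        (Set.Icc (0:ℝ) 1) →
      (∃ O : Set (Quot (fun q q' : V → EuclideanSpace ℝ (Fin d) =>
          ∃ T : EuclideanSpace ℝ (Fin d) ≃ᵢ EuclideanSpace ℝ (Fin d), ∀ i, T (q i) = q' i)),
        IsOpen O ∧
        ∃ h : ↥(O ∩ {x : Quot (fun q q' : V → EuclideanSpace ℝ (Fin d) =>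
              ∃ T : EuclideanSpace ℝ (Fin d) ≃ᵢ EuclideanSpace ℝ (Fin d), ∀ i, T (q i) = q' i) |
              ∃ q : V → EuclideanSpace ℝ (Fin d),
                Quot.mk (fun q q' : V → EuclideanSpace ℝ (Fin d) =>
                  ∃ T : EuclideanSpace ℝ (Fin d) ≃ᵢ EuclideanSpace ℝ (Fin d), ∀ i, T (q i) = q' i) q = x ∧
                ∀ i j : V, G.Adj i j → dist (q i) (q j) = dist (p i) (p j)}) ≃ₜ ↥(Set.Ioo (0:ℝ) 1),
        ∃ a : Set.Ioo (0:ℝ) 1,
          (h.symm a).1 = Quot.mk (fun q q' : V → EuclideanSpace ℝ (Fin d) =>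
            ∃ T : EuclideanSpace ℝ (Fin d) ≃ᵢ EuclideanSpace ℝ (Fin d), ∀ i, T (q i) = q' i) p ∧
          ((∀ t ∈ Set.Ioc (0:ℝ) 1, ∃ b : Set.Ioo (0:ℝ) 1,
              (h.symm b).1 = Quot.mk (fun q q' : V → EuclideanSpace ℝ (Fin d) =>
                ∃ T : EuclideanSpace ℝ (Fin d) ≃ᵢ EuclideanSpace ℝ (Fin d), ∀ i, T (q i) = q' i) (m t) ∧
              (a : ℝ) < (b : ℝ)) ∨
           (∀ t ∈ Set.Ioc (0:ℝ) 1, ∃ b : Set.Ioo (0:ℝ) 1,
              (h.symm b).1 = Quot.mk (fun q q' : V → EuclideanSpace ℝ (Fin d) =>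
                ∃ T : EuclideanSpace ℝ (Fin d) ≃ᵢ EuclideanSpace ℝ (Fin d), ∀ i, T (q i) = q' i) (m t) ∧
              (b : ℝ) < (a : ℝ)))) →
      ∃ T : ℝ → (EuclideanSpace ℝ (Fin d) ≃ᵢ EuclideanSpace ℝ (Fin d)),
        (∀ x, T 0 x = x) ∧
        (∀ x, ContinuousOn (fun t => T t x) (Set.Icc (0:ℝ) 1)) ∧
        ∀ t ∈ Set.Icc (0:ℝ) 1, ∀ γ : Γ, ∀ i : V,
          (γ : EuclideanSpace ℝ (Fin d) ≃ᵢ EuclideanSpace ℝ (Fin d)) (T t (m t i))
            = T t (m t (θ γ i))) : False := by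
  have : Finite Gam' := by
    have : Finite ({1, reflI} : Set (Isom 3)) := Set.toFinite _
    exact this
  obtain ⟨T, _, _, h⟩ := H 3 (Fin 7) G7 p7 Gam' theta'
    (fun γ u v => ((theta γ : G7 ≃g G7).map_rel_iff (a := u) (b := v)).symm)
    (fun γ i => p7_symm γ i)
    (fun t => std (t / 20))
    (cont_std.comp (by fun_prop) (fun t ht => tdom ht))
    (by
      show std (0 / 20) = p7
      rw [zero_div, std_zero])
    (fun t ht i j hij => std_mem (tdom ht) i j hij)
    (fun i j t ht t' ht' htt => std_dist_mono (div_nonneg ht.1 (by norm_num))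
      (div_le_div_of_nonneg_right htt (by norm_num)) (tdom ht) (tdom ht') i j)
    (by
      refine ⟨1, ⟨zero_le_one, le_rfl⟩, 3, 4, ?_⟩
      obtain ⟨_, h1, _⟩ := (rel_std (tdom (t := 1) ⟨zero_le_one, le_rfl⟩)).nonedges
      obtain ⟨_, h2, _⟩ := rel0.nonedges
      intro h
      have h3 : dist (std (1 / 20) 3) (std (1 / 20) 4) ^ 2 = dist (p7 3) (p7 4) ^ 2 := by
        rw [h]
      have h4 := (h1.symm.trans h3).trans h2
      norm_num at h4)
    (by
      intro t ht t' ht' hE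
      have h1 : rel (std (t / 20)) (std (t' / 20)) := mk_eq_iff.1 hE
      have h2 := invP_congr _ _ h1
      rw [invP_std (tdom ht), invP_std (tdom ht')] at h2
      have h3 : fh (t / 20) = fh (t' / 20) := by linarith
      have h4 := fh_strictMono.injOn (tdom ht) (tdom ht') h3
      linarith)
    (by
      refine ⟨OO, OO_isOpen, hh, ⟨1 / 2, by norm_num, by norm_num⟩, ?_, Or.inl ?_⟩
      · show Quot.mk rel (std ((2 * (1 / 2 : ℝ) - 1) / 10)) = Quot.mk rel p7
        rw [← std_zero]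
        norm_num
      · intro t ht
        refine ⟨⟨1 / 2 + t / 4, by linarith [ht.1], by linarith [ht.2]⟩, ?_, by
          show (1 / 2 : ℝ) < 1 / 2 + t / 4
          linarith [ht.1]⟩
        show Quot.mk rel (std ((2 * (1 / 2 + t / 4 : ℝ) - 1) / 10)) = Quot.mk rel (std (t / 20))
        congr 2
        ring)
  have h1 := h 1 ⟨zero_le_one, le_rfl⟩ rG
  have e6 := h1 6
  have e1 := h1 1
  have s6 : theta' rG 6 = 6 := by
    show RelIso.toEquiv (theta rG) 6 = 6
    rw [theta_rG]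
    show Equiv.swap (1 : Fin 7) 2 6 = 6
    decide
  have s1 : theta' rG 1 = 2 := by
    show RelIso.toEquiv (theta rG) 1 = 2
    rw [theta_rG]
    show Equiv.swap (1 : Fin 7) 2 1 = 2
    decide
  rw [s6] at e6
  rw [s1] at e1
  have e6' : refl3 (T 1 (std (1 / 20) 6)) = T 1 (std (1 / 20) 6) := e6
  have e1' : refl3 (T 1 (std (1 / 20) 1)) = T 1 (std (1 / 20) 2) := e1
  have hd : dist (std (1 / 20) 2) (std (1 / 20) 6) = dist (std (1 / 20) 1) (std (1 / 20) 6) := by
    calc dist (std (1 / 20) 2) (std (1 / 20) 6)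
        = dist (T 1 (std (1 / 20) 2)) (T 1 (std (1 / 20) 6)) := ((T 1).dist_eq _ _).symm
      _ = dist (refl3 (T 1 (std (1 / 20) 1))) (refl3 (T 1 (std (1 / 20) 6))) := by rw [e1', e6']
      _ = dist (T 1 (std (1 / 20) 1)) (T 1 (std (1 / 20) 6)) := refl3.dist_eq _ _
      _ = dist (std (1 / 20) 1) (std (1 / 20) 6) := (T 1).dist_eq _ _
  have h2 := invP_std (tdom (t := 1) ⟨zero_le_one, le_rfl⟩)
  have h3 : invP (std (1 / 20)) = 0 := by
    unfold invP; rw [hd, sub_self]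
  have h4 : fh (1 / 20) = 0 := by linarith
  have h5 : fh 0 = 0 := by simp [fh, fm]
  have h6 := fh_lt (x := 0) (y := 1 / 20) le_rfl (by norm_num) zero_dom
    (tdom (t := 1) ⟨zero_le_one, le_rfl⟩)
  linarith

end Run7.h114.CuspFrozen
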