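import Pool.Agent.Results.MP_916210_gt.BetaOmega

set_option autoImplicit false

open Topology Filter Set

namespace Run7.h114.LStable

open Pool.Agent.Results.MP_916210_gt.BetaOmega

variable {X Y : Type} [TopologicalSpace X] [TopologicalSpace Y]

/-- the topology of pointwise convergence on `C(X, ℝ)` -/
abbrev ptop (X : Type) [TopologicalSpace X] : TopologicalSpace C(X, ℝ) :=
  TopologicalSpace.induced (fun f : C(X, ℝ) => (f : X → ℝ)) inferInstance

/-- A continuous linear map between the `C(X, ℝ)` gives one between the `Cp`. -/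
noncomputable def toCp (φ : C(X, ℝ) →ₗ[ℝ] C(Y, ℝ)) (h : @Continuous _ _ (ptop X) (ptop Y) (⇑φ)) :
    Cp X →L[ℝ] Cp Y where
  toFun f := ⟨φ ⟨f.1, f.2⟩, (φ ⟨f.1, f.2⟩).continuous⟩
  map_add' f g := by
    apply Subtype.ext
    change ((φ ((⟨f.1, f.2⟩ : C(X, ℝ)) + (⟨g.1, g.2⟩ : C(X, ℝ))) : C(Y, ℝ)) : Y → ℝ) = _
    rw [map_add]
    rfl
  map_smul' c f := by
    apply Subtype.ext
    change ((φ (c • (⟨f.1, f.2⟩ : C(X, ℝ))) : C(Y, ℝ)) : Y → ℝ) = _
    rw [map_smul]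
    rfl
  cont := by
    refine Continuous.subtype_mk ?_ _
    have h1 : @Continuous _ _ (inferInstance : TopologicalSpace (Cp X)) (ptop X)
        (fun f : Cp X => (⟨f.1, f.2⟩ : C(X, ℝ))) := by
      rw [continuous_induced_rng]
      exact continuous_subtype_val
    have h2 : @Continuous _ _ (ptop X) inferInstance (fun f : C(X, ℝ) => (φ f : Y → ℝ)) := by
      have := continuous_induced_rng.1 h
      exact this
    exact @Continuous.comp _ _ _ _ (ptop X) _ _ _ h2 h1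

theorem toCp_apply (φ : C(X, ℝ) →ₗ[ℝ] C(Y, ℝ)) (h : @Continuous _ _ (ptop X) (ptop Y) (⇑φ)) (f : Cp X) (y : Y) :
    (toCp φ h f : Y → ℝ) y = φ ⟨f.1, f.2⟩ y := rfl

/-- And back. -/
def ofCp (φ : Cp X →L[ℝ] Cp Y) : C(X, ℝ) →ₗ[ℝ] C(Y, ℝ) where
  toFun f := ⟨(φ ⟨f, f.continuous⟩ : Y → ℝ), (φ ⟨f, f.continuous⟩).2⟩
  map_add' f g := by
    ext y
    change (φ ((⟨f, f.continuous⟩ : Cp X) + (⟨g, g.continuous⟩ : Cp X)) : Y → ℝ) y = _
    rw [map_add]
    rfl
  map_smul' c f := by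
    ext y
    change (φ (c • (⟨f, f.continuous⟩ : Cp X)) : Y → ℝ) y = _
    rw [map_smul]
    rfl

theorem ofCp_cont (φ : Cp X →L[ℝ] Cp Y) : @Continuous _ _ (ptop X) (ptop Y) (⇑(ofCp φ)) := by
  have h1 : @Continuous _ _ (ptop X) inferInstance
      (fun f : C(X, ℝ) => (⟨f, f.continuous⟩ : Cp X)) := by
    refine continuous_induced_rng.2 ?_
    exact continuous_induced_dom
  have h2 : Continuous (fun f : Cp X => (φ f : Y → ℝ)) := continuous_subtype_val.comp φ.continuous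
  have h3 : @Continuous _ _ (ptop X) inferInstance
      ((fun f : Cp X => (φ f : Y → ℝ)) ∘ (fun f : C(X, ℝ) => (⟨f, f.continuous⟩ : Cp X))) :=
    @Continuous.comp _ _ _ (ptop X) _ _ _ _ h2 h1
  refine continuous_induced_rng.2 ?_
  exact h3

/-- `l`-equivalence in the form of the frozen statement. -/
theorem toEquiv (h : LEquivalent X Y) : ∃ e : C(X, ℝ) ≃ₗ[ℝ] C(Y, ℝ),
    @Continuous _ _ (ptop X) (ptop Y) (⇑e) ∧ @Continuous _ _ (ptop Y) (ptop X) (⇑e.symm) := by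
  obtain ⟨L⟩ := h
  refine ⟨LinearEquiv.ofLinearMap (ofCp (L : Cp X →L[ℝ] Cp Y)) (ofCp (L.symm : Cp Y →L[ℝ] Cp X)) ?_ ?_, ?_, ?_⟩
  · refine LinearMap.ext fun f => ?_
    apply ContinuousMap.coe_injective
    change ((L (L.symm ⟨f, f.continuous⟩) : Cp Y) : Y → ℝ) = _
    rw [L.apply_symm_apply]
    rfl
  · refine LinearMap.ext fun f => ?_
    apply ContinuousMap.coe_injective
    change ((L.symm (L ⟨f, f.continuous⟩) : Cp X) : X → ℝ) = _
    rw [L.symm_apply_apply]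
    rfl
  · exact ofCp_cont _
  · exact ofCp_cont _

theorem ofEquiv (e : C(X, ℝ) ≃ₗ[ℝ] C(Y, ℝ)) (h1 : @Continuous _ _ (ptop X) (ptop Y) (⇑e))
    (h2 : @Continuous _ _ (ptop Y) (ptop X) (⇑e.symm)) : LEquivalent X Y := by
  refine ⟨ContinuousLinearEquiv.equivOfInverse (toCp e.toLinearMap h1) (toCp e.symm.toLinearMap h2) ?_ ?_⟩
  · intro f
    apply Subtype.ext
    change ((e.symm (e ⟨f.1, f.2⟩) : C(X, ℝ)) : X → ℝ) = _
    rw [e.symm_apply_apply]
    rfl
  · intro f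
    apply Subtype.ext
    change ((e (e.symm ⟨f.1, f.2⟩) : C(Y, ℝ)) : Y → ℝ) = _
    rw [e.apply_symm_apply]
    rfl

/-- the one-point compactification of `ℕ` is `ω + 1` -/
noncomputable def oneHomeo : OnePoint ℕ ≃ₜ ℕ∞ :=
  Continuous.homeoOfEquivCompactToT2 (f := (Equiv.refl (Option ℕ) : OnePoint ℕ ≃ ℕ∞))
    (by
      rw [OnePoint.continuous_iff_from_nat]
      exact ENat.tendsto_natCast_nhds_top)

end Run7.h114.LStable
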