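import Pool.Agent.Helper337.PolygonProofC

set_option autoImplicit false
set_option maxHeartbeats 1000000

namespace Run7.h114.PolyFrozen

open Set Filter Topology

abbrev Pl : Type := ℝ × ℝ

/-! ### increasing maps of the half line -/

theorem exists_psi_le {a b r : ℝ} (hb : 0 < b) (hba : b ≤ a) (har : a < r) :
    ∃ ψ : ℝ ≃o ℝ, ψ 0 = 0 ∧ ψ a = b ∧ ∀ s, r ≤ s → ψ s = s := by
  have ha : 0 < a := lt_of_lt_of_le hb hba
  have hra : 0 < r - a := by linarith
  have hrb : 0 < r - b := by linarith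
  have hs1 : 0 < b / a := div_pos hb ha
  have hs2 : 0 < (r - b) / (r - a) := div_pos hrb hra
  set F : ℝ → ℝ := fun s => min (max (b / a * s) (b + (r - b) / (r - a) * (s - a))) s with hF
  have hf : StrictMono fun s : ℝ => b / a * s := fun s t h => mul_lt_mul_of_pos_left h hs1
  have hg : StrictMono fun s : ℝ => b + (r - b) / (r - a) * (s - a) := by
    intro s t h
    have := mul_lt_mul_of_pos_left (sub_lt_sub_right h a) hs2
    simp only
    linarith
  have hmono : StrictMono F := fun s t h => min_lt_min (max_lt_max (hf h) (hg h)) h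
  have hneg : ∀ s, s ≤ 0 → F s = s := by
    intro s hs
    have h1 : b / a ≤ 1 := (div_le_one ha).2 hba
    have h2 : s ≤ b / a * s := by nlinarith
    exact min_eq_right (h2.trans (le_max_left _ _))
  have hge : ∀ s, r ≤ s → F s = s := by
    intro s hs
    have h2 : s ≤ b + (r - b) / (r - a) * (s - a) := by
      have h3 : (r - b) / (r - a) * (s - a) = (r - b) * (s - a) / (r - a) := by ring
      rw [h3, ← sub_le_iff_le_add', le_div_iff₀ hra]
      nlinarith [mul_nonneg (sub_nonneg.2 hba) (sub_nonneg.2 hs)]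
    exact min_eq_right (h2.trans (le_max_right _ _))
  have hcont : Continuous F := by
    rw [hF]
    fun_prop
  have htop : Tendsto F atTop atTop :=
    tendsto_id.congr' ((eventually_ge_atTop r).mono fun s hs => (hge s hs).symm)
  have hbot : Tendsto F atBot atBot :=
    tendsto_id.congr' ((eventually_le_atBot 0).mono fun s hs => (hneg s hs).symm)
  have hsurj : Function.Surjective F := hcont.surjective htop hbot
  refine ⟨hmono.orderIsoOfSurjective F hsurj, hneg 0 le_rfl, ?_, hge⟩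
  show F a = b
  rw [hF]
  simp only
  rw [div_mul_cancel₀ _ ha.ne', sub_self, mul_zero, add_zero, max_self, min_eq_left hba]

theorem exists_psi {a b r : ℝ} (ha : 0 < a) (hb : 0 < b) (har : a < r) (hbr : b < r) :
    ∃ ψ : ℝ ≃o ℝ, ψ 0 = 0 ∧ ψ a = b ∧ ∀ s, r ≤ s → ψ s = s := by
  rcases le_total b a with h | h
  · exact exists_psi_le hb h har
  · obtain ⟨ψ, h1, h2, h3⟩ := exists_psi_le ha h hbr
    refine ⟨ψ.symm, ?_, ?_, fun s hs => ?_⟩
    · rw [OrderIso.symm_apply_eq, h1]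
    · rw [OrderIso.symm_apply_eq, h2]
    · rw [OrderIso.symm_apply_eq, h3 s hs]

/-! ### radial maps -/

/-- the radial map with centre `c` and profile `ψ` -/
noncomputable def rad (ψ : ℝ ≃o ℝ) (c p : Pl) : Pl := c + (ψ ‖p - c‖ / ‖p - c‖) • (p - c)

theorem psi_nonneg {ψ : ℝ ≃o ℝ} (h0 : ψ 0 = 0) {s : ℝ} (hs : 0 ≤ s) : 0 ≤ ψ s := by
  rw [← h0]; exact ψ.monotone hs

theorem psi_pos {ψ : ℝ ≃o ℝ} (h0 : ψ 0 = 0) {s : ℝ} (hs : 0 < s) : 0 < ψ s := by
  rw [← h0]; exact ψ.strictMono hs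

theorem rad_center (ψ : ℝ ≃o ℝ) (c : Pl) : rad ψ c c = c := by
  simp [rad]

theorem norm_rad {ψ : ℝ ≃o ℝ} (h0 : ψ 0 = 0) (c p : Pl) : ‖rad ψ c p - c‖ = ψ ‖p - c‖ := by
  unfold rad
  rw [add_sub_cancel_left, norm_smul, Real.norm_eq_abs,
    abs_of_nonneg (div_nonneg (psi_nonneg h0 (norm_nonneg _)) (norm_nonneg _))]
  by_cases h : ‖p - c‖ = 0
  · rw [h, h0]; simp
  · rw [div_mul_cancel₀ _ h]

theorem rad_symm_rad {ψ : ℝ ≃o ℝ} (h0 : ψ 0 = 0) (c p : Pl) : rad ψ.symm c (rad ψ c p) = p := by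
  by_cases h : p = c
  · subst h
    rw [rad_center, rad_center]
  · have hN : 0 < ‖p - c‖ := norm_pos_iff.2 (sub_ne_zero.2 h)
    have hψ := psi_pos h0 hN
    have h1 : rad ψ.symm c (rad ψ c p) =
        c + (ψ.symm ‖rad ψ c p - c‖ / ‖rad ψ c p - c‖) • (rad ψ c p - c) := rfl
    rw [h1, norm_rad h0, OrderIso.symm_apply_apply]
    have h2 : rad ψ c p - c = (ψ ‖p - c‖ / ‖p - c‖) • (p - c) := by
      unfold rad; rw [add_sub_cancel_left]
    rw [h2, smul_smul]
    have h3 : ‖p - c‖ / ψ ‖p - c‖ * (ψ ‖p - c‖ / ‖p - c‖) = 1 := by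
      field_simp
    rw [h3, one_smul, add_sub_cancel]

theorem rad_continuous {ψ : ℝ ≃o ℝ} (h0 : ψ 0 = 0) (c : Pl) : Continuous (rad ψ c) := by
  rw [continuous_iff_continuousAt]
  intro p
  by_cases h : p = c
  · subst h
    rw [ContinuousAt, rad_center, tendsto_iff_norm_sub_tendsto_zero]
    have h1 : (fun q => ‖rad ψ p q - p‖) = fun q => ψ ‖q - p‖ := by
      funext q; exact norm_rad h0 p q
    rw [h1]
    have h2 : Continuous fun q : Pl => ψ ‖q - p‖ :=
      ψ.continuous.comp (by fun_prop)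
    have h3 := h2.tendsto p
    simpa [h0] using h3
  · have hN : ‖p - c‖ ≠ 0 := norm_ne_zero_iff.2 (sub_ne_zero.2 h)
    unfold rad
    have h2 : Continuous fun q : Pl => ψ ‖q - c‖ := ψ.continuous.comp (by fun_prop)
    have h3 : Continuous fun q : Pl => ‖q - c‖ := by fun_prop
    exact continuousAt_const.add ((h2.continuousAt.div h3.continuousAt hN).smul
      (by fun_prop))

/-- the radial map as a homeomorphism -/
noncomputable def radH (ψ : ℝ ≃o ℝ) (h0 : ψ 0 = 0) (c : Pl) : Pl ≃ₜ Pl where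
  toFun := rad ψ c
  invFun := rad ψ.symm c
  left_inv := rad_symm_rad h0 c
  right_inv := by
    have h1 : ψ.symm 0 = 0 := by rw [OrderIso.symm_apply_eq, h0]
    exact rad_symm_rad (ψ := ψ.symm) h1 c
  continuous_toFun := rad_continuous h0 c
  continuous_invFun := by
    have h1 : ψ.symm 0 = 0 := by rw [OrderIso.symm_apply_eq, h0]
    exact rad_continuous h1 c

theorem rad_segment_sub {ψ : ℝ ≃o ℝ} (h0 : ψ 0 = 0) (c q : Pl) {p : Pl}
    (hp : p ∈ segment ℝ c q) : rad ψ c p ∈ segment ℝ c (rad ψ c q) := by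
  by_cases h : q = c
  · subst h
    rw [segment_same] at hp
    rw [mem_singleton_iff.1 hp, rad_center, segment_same]
    rfl
  rw [segment_eq_image'] at hp
  obtain ⟨t, ⟨ht0, ht1⟩, rfl⟩ := hp
  have hN : 0 < ‖q - c‖ := norm_pos_iff.2 (sub_ne_zero.2 h)
  have hψ := psi_pos h0 hN
  rw [segment_eq_image']
  refine ⟨ψ (t * ‖q - c‖) / ψ ‖q - c‖, ⟨div_nonneg (psi_nonneg h0 (by positivity)) hψ.le,
    (div_le_one hψ).2 (ψ.monotone (by nlinarith))⟩, ?_⟩
  have h2 : rad ψ c q - c = (ψ ‖q - c‖ / ‖q - c‖) • (q - c) := by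
    unfold rad; rw [add_sub_cancel_left]
  simp only
  rw [h2]
  unfold rad
  rw [add_sub_cancel_left, norm_smul, Real.norm_eq_abs, abs_of_nonneg ht0, smul_smul, smul_smul]
  congr 2
  rcases ht0.eq_or_lt with h3 | h3
  · rw [← h3]; simp [h0]
  · field_simp

theorem rad_segment {ψ : ℝ ≃o ℝ} (h0 : ψ 0 = 0) (c q : Pl) :
    radH ψ h0 c '' segment ℝ c q = segment ℝ c (rad ψ c q) := by
  have h1 : ψ.symm 0 = 0 := by rw [OrderIso.symm_apply_eq, h0]
  apply subset_antisymm
  · rintro _ ⟨p, hp, rfl⟩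
    exact rad_segment_sub h0 c q hp
  · intro p hp
    have h2 := rad_segment_sub h1 c (rad ψ c q) hp
    rw [rad_symm_rad h0] at h2
    exact ⟨rad ψ.symm c p, h2, (radH ψ h0 c).right_inv p⟩

theorem rad_fix {ψ : ℝ ≃o ℝ} {r : ℝ} (hr0 : 0 < r) (hr : ∀ s, r ≤ s → ψ s = s) {c p : Pl}
    (h : r ≤ ‖p - c‖) : rad ψ c p = p := by
  unfold rad
  rw [hr _ h, div_self (by linarith), one_smul, add_sub_cancel]

theorem image_fix {ψ : ℝ ≃o ℝ} (h0 : ψ 0 = 0) {r : ℝ} (hr0 : 0 < r) (hr : ∀ s, r ≤ s → ψ s = s)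
    {c : Pl} {S : Set Pl} (h : ∀ p ∈ S, r ≤ ‖p - c‖) : radH ψ h0 c '' S = S := by
  apply subset_antisymm
  · rintro _ ⟨p, hp, rfl⟩
    show rad ψ c p ∈ S
    rw [rad_fix hr0 hr (h p hp)]
    exact hp
  · intro p hp
    exact ⟨p, hp, rad_fix hr0 hr (h p hp)⟩

/-! ### resizing the spurs -/

section resize

variable {ι : Type} [Fintype ι] [DecidableEq ι]

omit [Fintype ι] in
theorem resize (s : Equiv.Perm ι) (x v : ι → Pl) (hv : ∀ i, v i ≠ 0)
    {r δ : ℝ} (hr : 0 < r)
    (h1 : ∀ i j, j ≠ i → s j ≠ i → ∀ p ∈ segment ℝ (x j) (x (s j)), r ≤ ‖p - x i‖)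
    (h2 : ∀ i j, i ≠ j → 2 * r ≤ ‖x i - x j‖)
    (h3 : ∀ i, δ * ‖v i‖ ≤ r) {e₁ e₂ : ℝ} (he₁ : 0 < e₁) (he₁' : e₁ < δ) (he₂ : 0 < e₂)
    (he₂' : e₂ < δ) (S : Finset ι) :
    ∃ g : Pl ≃ₜ Pl, (∀ j, g '' segment ℝ (x j) (x (s j)) = segment ℝ (x j) (x (s j))) ∧
      (∀ j, g (x j) = x j) ∧
      (∀ j, g '' segment ℝ (x j) (x j + e₁ • v j) =
        segment ℝ (x j) (x j + (if j ∈ S then e₂ else e₁) • v j)) ∧
      (∀ j, g (x j + e₁ • v j) = x j + (if j ∈ S then e₂ else e₁) • v j) := by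
  induction S using Finset.induction_on with
  | empty =>
    refine ⟨Homeomorph.refl _, fun j => ?_, fun j => rfl, fun j => ?_, fun j => ?_⟩
    · simp
    · simp
    · simp
  | insert i S hi ih =>
    obtain ⟨g, g1, g2, g3, g4⟩ := ih
    have hvi : 0 < ‖v i‖ := norm_pos_iff.2 (hv i)
    have ea : ∀ e, 0 < e → ‖(x i + e • v i) - x i‖ = e * ‖v i‖ := by
      intro e he
      rw [add_sub_cancel_left, norm_smul, Real.norm_eq_abs, abs_of_pos he]
    have hlt : ∀ e, e < δ → e * ‖v i‖ < r := fun e he =>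
      lt_of_lt_of_le (mul_lt_mul_of_pos_right he hvi) (h3 i)
    obtain ⟨ψ, ψ0, ψa, ψr⟩ := exists_psi (mul_pos he₁ hvi) (mul_pos he₂ hvi) (hlt e₁ he₁')
      (hlt e₂ he₂')
    set R := radH ψ ψ0 (x i) with hR
    have Rapp : ∀ p, R p = rad ψ (x i) p := fun p => rfl
    have far : ∀ j, j ≠ i → ∀ e, 0 < e → e < δ → ∀ p ∈ segment ℝ (x j) (x j + e • v j),
        r ≤ ‖p - x i‖ := by
      intro j hj e he he' p hp
      rw [segment_eq_image'] at hp
      obtain ⟨t, ⟨ht0, ht1⟩, rfl⟩ := hp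
      have k1 := h2 j i hj
      have k2 : ‖t • (x j + e • v j - x j)‖ ≤ r := by
        rw [add_sub_cancel_left, norm_smul, norm_smul, Real.norm_eq_abs, Real.norm_eq_abs,
          abs_of_nonneg ht0, abs_of_pos he]
        have k3 : e * ‖v j‖ ≤ r :=
          (mul_le_mul_of_nonneg_right he'.le (norm_nonneg _)).trans (h3 j)
        have k4 : 0 ≤ e * ‖v j‖ := by positivity
        nlinarith
      have k5 : x j - x i = (x j + t • (x j + e • v j - x j) - x i) -
          t • (x j + e • v j - x j) := by abel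
      have k6 := norm_sub_le (x j + t • (x j + e • v j - x j) - x i) (t • (x j + e • v j - x j))
      rw [← k5] at k6
      linarith
    have tip : R (x i + e₁ • v i) = x i + e₂ • v i := by
      rw [Rapp]
      unfold rad
      rw [ea e₁ he₁, ψa, add_sub_cancel_left, smul_smul]
      congr 2
      field_simp
    have Rfix : ∀ j, R (x j) = x j := by
      intro j
      by_cases hj : j = i
      · rw [hj]; exact rad_center ψ (x i)
      · refine rad_fix hr ψr ?_
        have := h2 j i hj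
        linarith
    have Rspur : ∀ j, R '' segment ℝ (x j) (x j + (if j ∈ S then e₂ else e₁) • v j) =
        segment ℝ (x j) (x j + (if j ∈ insert i S then e₂ else e₁) • v j) := by
      intro j
      by_cases hj : j = i
      · subst hj
        rw [if_neg hi, if_pos (Finset.mem_insert_self _ _), rad_segment]
        congr 1
      · have hmem : j ∈ insert i S ↔ j ∈ S := by simp [Finset.mem_insert, hj]
        rw [if_congr hmem rfl rfl]
        refine image_fix ψ0 hr ψr (far j hj _ ?_ ?_)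
        · split_ifs <;> assumption
        · split_ifs <;> assumption
    have Rtip : ∀ j, R (x j + (if j ∈ S then e₂ else e₁) • v j) =
        x j + (if j ∈ insert i S then e₂ else e₁) • v j := by
      intro j
      by_cases hj : j = i
      · subst hj
        rw [if_neg hi, if_pos (Finset.mem_insert_self _ _), tip]
      · have hmem : j ∈ insert i S ↔ j ∈ S := by simp [Finset.mem_insert, hj]
        rw [if_congr hmem rfl rfl]
        refine rad_fix hr ψr (far j hj (if j ∈ S then e₂ else e₁) ?_ ?_ _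
          (right_mem_segment ℝ _ _))
        · split_ifs <;> assumption
        · split_ifs <;> assumption
    have Redge : ∀ j, R '' segment ℝ (x j) (x (s j)) = segment ℝ (x j) (x (s j)) := by
      intro j
      by_cases hj : j = i
      · subst hj
        rw [rad_segment]
        congr 1
        exact Rfix (s j)
      · by_cases hj' : s j = i
        · rw [segment_symm, hj', rad_segment]
          congr 1
          exact Rfix j
        · exact image_fix ψ0 hr ψr (h1 i j hj hj')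
    have hcoe : ⇑(g.trans R) = R ∘ g := rfl
    refine ⟨g.trans R, fun j => ?_, fun j => ?_, fun j => ?_, fun j => ?_⟩
    · rw [hcoe, image_comp, g1, Redge]
    · rw [Homeomorph.trans_apply, g2, Rfix]
    · rw [hcoe, image_comp, g3, Rspur]
    · rw [Homeomorph.trans_apply, g4, Rtip]

theorem exists_r (s : Equiv.Perm ι) (x : ι → Pl)
    (h1 : ∀ i j, j ≠ i → s j ≠ i → x i ∉ segment ℝ (x j) (x (s j)))
    (h2 : ∀ i j, i ≠ j → x i ≠ x j) :
    ∃ r : ℝ, 0 < r ∧
      (∀ i j, j ≠ i → s j ≠ i → ∀ p ∈ segment ℝ (x j) (x (s j)), r ≤ ‖p - x i‖) ∧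
      (∀ i j, i ≠ j → 2 * r ≤ ‖x i - x j‖) := by
  have A : ∀ᶠ r in 𝓝[>] (0 : ℝ), ∀ i j, j ≠ i → s j ≠ i → ∀ p ∈ segment ℝ (x j) (x (s j)),
      r ≤ ‖p - x i‖ := by
    rw [eventually_all]
    intro i
    rw [eventually_all]
    intro j
    by_cases hj : j ≠ i ∧ s j ≠ i
    · have hcl : IsClosed (segment ℝ (x j) (x (s j))) := by
        rw [segment_eq_image']
        exact (isCompact_Icc.image (by fun_prop)).isClosed
      have hpos : 0 < Metric.infDist (x i) (segment ℝ (x j) (x (s j))) :=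
        (hcl.notMem_iff_infDist_pos ⟨x j, left_mem_segment ℝ _ _⟩).1 (h1 i j hj.1 hj.2)
      filter_upwards [Ioc_mem_nhdsGT hpos] with r hr _ _ p hp
      refine hr.2.trans ((Metric.infDist_le_dist_of_mem hp).trans ?_)
      rw [dist_comm, dist_eq_norm]
    · exact Eventually.of_forall fun r a b => absurd ⟨a, b⟩ hj
  have B : ∀ᶠ r in 𝓝[>] (0 : ℝ), ∀ i j, i ≠ j → 2 * r ≤ ‖x i - x j‖ := by
    rw [eventually_all]
    intro i
    rw [eventually_all]
    intro j
    by_cases hj : i ≠ j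
    · have hpos : 0 < ‖x i - x j‖ / 2 := half_pos (norm_pos_iff.2 (sub_ne_zero.2 (h2 i j hj)))
      filter_upwards [Ioc_mem_nhdsGT hpos] with r hr _
      have := hr.2
      linarith
    · exact Eventually.of_forall fun r a => absurd a hj
  obtain ⟨r, ⟨hA, hB⟩, hr⟩ := ((A.and B).and self_mem_nhdsWithin).exists
  exact ⟨r, hr, hA, hB⟩

end resize

/-! ### the two polygons -/

open Pool.Agent.Helper337.PolygonPattern

/-- the rotation -/
abbrev rot : Equiv.Perm (Fin 14) := finRotate 14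

theorem rot_apply (i : Fin 14) : rot i = i + 1 := finRotate_apply i

theorem rot_symm_apply (i : Fin 14) : rot.symm i = i - 1 := by
  rw [Equiv.symm_apply_eq, rot_apply, sub_add_cancel]

/-- the vector of the spur -/
def vv (x : Fin 14 → ℝ × ℝ) (i : Fin 14) : ℝ × ℝ :=
  (2 : ℝ) • x i - x (rot.symm i) - x (rot i)

/-- end of the spur -/
def pend (x : Fin 14 → ℝ × ℝ) (ε : ℝ) (i : Fin 14) : ℝ × ℝ :=
  x i + ε • ((2 : ℝ) • x i - x ((finRotate 14).symm i) - x (finRotate 14 i))

/-- the map -/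
def mapSet (x : Fin 14 → ℝ × ℝ) (ε : ℝ) : Set (ℝ × ℝ) :=
  (⋃ i, segment ℝ (x i) (x (finRotate 14 i))) ∪ ⋃ i, segment ℝ (x i) (pend x ε i)

/-- the nodes -/
def nodes (x : Fin 14 → ℝ × ℝ) (ε : ℝ) : Set (ℝ × ℝ) :=
  Set.range x ∪ {p : ℝ × ℝ | ∃ i j, i ≠ j ∧ p ∈ segment ℝ (x i) (x (finRotate 14 i)) ∧
    p ∈ segment ℝ (x j) (x (finRotate 14 j))} ∪ Set.range (pend x ε)

/-- the first polygon -/
def x14 : Fin 14 → ℝ × ℝ := xx

/-- the second polygon -/
def y14 : Fin 14 → ℝ × ℝ := yy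

theorem tau_x14 (i : Fin 14) : tau (x14 i) = y14 (i + 7) := tau_xx i

/-- the vertices of the first polygon are distinct -/
theorem xx_inj {i j : Fin 14} (h : i ≠ j) : x14 i ≠ x14 j := by
  have h1 : ∀ i j : ZMod 14, i ≠ j → XZ i ≠ XZ j := by decide +kernel
  intro h2
  apply h1 i j h
  simp only [x14, xx, toR, Prod.mk.injEq] at h2
  exact Prod.ext (by exact_mod_cast h2.1) (by exact_mod_cast h2.2)

theorem xx_notMem {i j : Fin 14} (h : j ≠ i) (h' : rot j ≠ i) :
    x14 i ∉ segment ℝ (x14 j) (x14 (rot j)) := by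
  intro hm
  rw [rot_apply] at hm h'
  have k0 : ∀ i : Fin 14, (i - 1 : Fin 14) ≠ i := by decide
  have k1 := k0 i
  have k2 : (i - 1 : Fin 14) + 1 = i := sub_add_cancel _ _
  refine no_incidence ordinaryX (i - 1 : Fin 14) i j k2 ?_ h k1 hm
  rintro rfl
  exact h' k2

theorem vv_ne {x : Fin 14 → ℝ × ℝ}
    (h : ∀ i : Fin 14, ¬ Collinear ℝ ({x (i - 1), x i, x (i + 1)} : Set (ℝ × ℝ))) (i : Fin 14) :
    vv x i ≠ 0 := by
  intro h0
  apply h i
  unfold vv at h0
  rw [rot_symm_apply, rot_apply] at h0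
  rw [collinear_iff_of_mem (p₀ := x i) (by simp)]
  refine ⟨x (i + 1) - x i, ?_⟩
  intro p hp
  simp only [mem_insert_iff, mem_singleton_iff] at hp
  rcases hp with rfl | rfl | rfl
  · refine ⟨-1, ?_⟩
    rw [vadd_eq_add]
    have : x (i - 1) = (2 : ℝ) • x i - x (i + 1) := by
      have h3 : (2 : ℝ) • x i - x (i + 1) - x (i - 1) = 0 := by
        rw [sub_right_comm]; exact h0
      exact (sub_eq_zero.1 h3).symm
    rw [this, two_smul]
    simp only [neg_smul, one_smul]
    abel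
  · exact ⟨0, by simp⟩
  · exact ⟨1, by simp⟩

/-- resizing the spurs of the first polygon -/
theorem resizeX : ∃ δ : ℝ, 0 < δ ∧ ∀ e₁ e₂ : ℝ, 0 < e₁ → e₁ < δ → 0 < e₂ → e₂ < δ →
    ∃ g : (ℝ × ℝ) ≃ₜ (ℝ × ℝ), g '' mapSet x14 e₁ = mapSet x14 e₂ ∧ g '' nodes x14 e₁ = nodes x14 e₂ := by
  obtain ⟨r, hr, h1, h2⟩ := exists_r rot x14 (fun i j a b => xx_notMem a b) (fun i j a => xx_inj a)
  have hV : ∃ V : ℝ, 0 < V ∧ ∀ i, ‖vv x14 i‖ ≤ V := by
    refine ⟨1 + ∑ i, ‖vv x14 i‖, by positivity, fun i => ?_⟩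
    have := Finset.single_le_sum (f := fun i => ‖vv x14 i‖) (fun i _ => norm_nonneg _)
      (Finset.mem_univ i)
    linarith
  obtain ⟨V, hV0, hV⟩ := hV
  refine ⟨r / V, by positivity, fun e₁ e₂ a1 a2 a3 a4 => ?_⟩
  obtain ⟨g, g1, g2, g3, g4⟩ := resize rot x14 (vv x14) (vv_ne properX) hr h1 h2 (δ := r / V)
    (fun i => by
      calc r / V * ‖vv x14 i‖ ≤ r / V * V := by
            have := hV i
            gcongr
        _ = r := by field_simp) a1 a2 a3 a4 Finset.univ
  simp only [Finset.mem_univ, if_true] at g3 g4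
  have e1 : ∀ e i, pend x14 e i = x14 i + e • vv x14 i := fun _ _ => rfl
  refine ⟨g, ?_, ?_⟩
  · unfold mapSet
    rw [image_union, image_iUnion, image_iUnion]
    congr 1
    · exact iUnion_congr g1
    · exact iUnion_congr g3
  · unfold nodes
    rw [image_union, image_union]
    congr 1
    · congr 1
      · rw [← range_comp]
        congr 1
        funext i
        exact g2 i
      · ext p
        constructor
        · rintro ⟨q, ⟨i, j, hij, hi, hj⟩, rfl⟩
          refine ⟨i, j, hij, ?_, ?_⟩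
          · have := mem_image_of_mem g hi
            rwa [g1 i] at this
          · have := mem_image_of_mem g hj
            rwa [g1 j] at this
        · rintro ⟨i, j, hij, hi, hj⟩
          have hi' := hi
          have hj' := hj
          have k1 := g1 i
          have k2 := g1 j
          change _ = segment ℝ (x14 i) (x14 (finRotate 14 i)) at k1
          change _ = segment ℝ (x14 j) (x14 (finRotate 14 j)) at k2
          rw [← k1] at hi'
          rw [← k2] at hj'
          obtain ⟨q, hq, rfl⟩ := hi'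
          obtain ⟨q', hq', hqq⟩ := hj'
          have := g.injective hqq
          subst this
          exact ⟨q', ⟨i, j, hij, hq, hq'⟩, rfl⟩
    · rw [← range_comp]
      congr 1
      funext i
      exact g4 i

/-- the reflection carries the first polygon to the second one -/
theorem tau_image (e : ℝ) : tau '' mapSet x14 e = mapSet y14 e ∧ tau '' nodes x14 e = nodes y14 e := by
  have hshift : ∀ i : Fin 14, rot (i + 7) = rot i + 7 := by decide
  have hshift' : ∀ i : Fin 14, rot.symm (i + 7) = rot.symm i + 7 := by decide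
  have hE : ∀ i : Fin 14, tau '' segment ℝ (x14 i) (x14 (rot i)) =
      segment ℝ (y14 (i + 7)) (y14 (rot (i + 7))) := by
    intro i
    rw [tau_segment, tau_x14, tau_x14, hshift]
  have hP : ∀ i : Fin 14, tau (pend x14 e i) = pend y14 e (i + 7) := by
    intro i
    show tau (x14 i + e • ((2 : ℝ) • x14 i - x14 (rot.symm i) - x14 (rot i))) =
      y14 (i + 7) + e • ((2 : ℝ) • y14 (i + 7) - y14 (rot.symm (i + 7)) - y14 (rot (i + 7)))
    rw [hshift, hshift']
    have t1 : y14 (i + 7) = tau (x14 i) := (tau_x14 i).symm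
    have t2 : y14 (rot i + 7) = tau (x14 (rot i)) := (tau_x14 (rot i)).symm
    have t3 : y14 (rot.symm i + 7) = tau (x14 (rot.symm i)) := (tau_x14 (rot.symm i)).symm
    rw [t1, t2, t3]
    simp only [tau_apply]
    apply Prod.ext
    · simp
    · simp
      ring
  have hS : ∀ i : Fin 14, tau '' segment ℝ (x14 i) (pend x14 e i) =
      segment ℝ (y14 (i + 7)) (pend y14 e (i + 7)) := by
    intro i
    rw [tau_segment, hP, tau_x14]
  have sh : ∀ {α : Type} (f : Fin 14 → Set α), ⋃ i, f (i + 7) = ⋃ i, f i := fun f =>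
    (Equiv.addRight (7 : Fin 14)).surjective.iUnion_comp f
  have h77 : ∀ i : Fin 14, i + 7 + 7 = i := by decide
  constructor
  · unfold mapSet
    rw [image_union, image_iUnion, image_iUnion]
    congr 1
    · rw [← sh (fun i => segment ℝ (y14 i) (y14 (finRotate 14 i)))]
      exact iUnion_congr hE
    · rw [← sh (fun i => segment ℝ (y14 i) (pend y14 e i))]
      exact iUnion_congr hS
  · unfold nodes
    rw [image_union, image_union]
    congr 1
    · congr 1
      · ext p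
        constructor
        · rintro ⟨_, ⟨i, rfl⟩, rfl⟩
          exact ⟨i + 7, (tau_x14 i).symm⟩
        · rintro ⟨i, rfl⟩
          refine ⟨x14 (i + 7), ⟨i + 7, rfl⟩, ?_⟩
          rw [tau_x14]
          congr 1
          exact h77 i
      · ext p
        constructor
        · rintro ⟨q, ⟨i, j, hij, hi, hj⟩, rfl⟩
          refine ⟨i + 7, j + 7, fun h => hij (add_right_cancel h), ?_, ?_⟩
          · have := mem_image_of_mem tau hi
            rwa [hE i] at this
          · have := mem_image_of_mem tau hj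
            rwa [hE j] at this
        · rintro ⟨i, j, hij, hi, hj⟩
          have k1 := hE (i + 7)
          have k2 := hE (j + 7)
          rw [h77] at k1 k2
          have hi' : p ∈ segment ℝ (y14 i) (y14 (rot i)) := hi
          have hj' : p ∈ segment ℝ (y14 j) (y14 (rot j)) := hj
          rw [← k1] at hi'
          rw [← k2] at hj'
          obtain ⟨q, hq, rfl⟩ := hi'
          obtain ⟨q', hq', hqq⟩ := hj'
          have := tau.injective hqq
          subst this
          exact ⟨q', ⟨i + 7, j + 7, fun h => hij (add_right_cancel h), hq, hq'⟩, rfl⟩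
    · ext p
      constructor
      · rintro ⟨_, ⟨i, rfl⟩, rfl⟩
        exact ⟨i + 7, (hP i).symm⟩
      · rintro ⟨i, rfl⟩
        refine ⟨pend x14 e (i + 7), ⟨i + 7, rfl⟩, ?_⟩
        rw [hP, h77]

/-- the same pattern, with spurs of different sizes -/
theorem pattern_xy : ∃ δ : ℝ, 0 < δ ∧ ∀ ε₁ ε₂ : ℝ, 0 < ε₁ → ε₁ < δ → 0 < ε₂ → ε₂ < δ →
    ∃ h : Homeomorph (ℝ × ℝ) (ℝ × ℝ), h '' mapSet x14 ε₁ = mapSet y14 ε₂ ∧
      h '' nodes x14 ε₁ = nodes y14 ε₂ := by
  obtain ⟨δ, hδ, H⟩ := resizeX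
  refine ⟨δ, hδ, fun e₁ e₂ a1 a2 a3 a4 => ?_⟩
  obtain ⟨g, g1, g2⟩ := H e₁ e₂ a1 a2 a3 a4
  obtain ⟨t1, t2⟩ := tau_image e₂
  have hcoe : ⇑(g.trans tau) = tau ∘ g := rfl
  refine ⟨g.trans tau, ?_, ?_⟩
  · rw [hcoe, image_comp, g1, t1]
  · rw [hcoe, image_comp, g2, t2]

theorem relabelling_of_dihedral (σ : Equiv.Perm (Fin 14))
    (h : (∀ i, σ (finRotate 14 i) = finRotate 14 (σ i)) ∨
      (∀ i, σ (finRotate 14 i) = (finRotate 14).symm (σ i))) :
    IsRelabelling (n := 14) (fun i => σ i) := by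
  have key : ∀ k : ℕ, ∀ hk : k < 14, (∀ i, σ (finRotate 14 i) = finRotate 14 (σ i)) →
      σ ⟨k, hk⟩ = σ 0 + ⟨k, hk⟩ := by
    intro k
    induction k with
    | zero =>
      intro hk _
      show σ 0 = σ 0 + 0
      rw [add_zero]
    | succ k ih =>
      intro hk hσ
      have h1 : (⟨k + 1, hk⟩ : Fin 14) = (⟨k, by omega⟩ : Fin 14) + 1 := by
        apply Fin.ext
        rw [Fin.val_add]
        show k + 1 = (k + 1) % 14
        rw [Nat.mod_eq_of_lt hk]
      have h2 := hσ ⟨k, by omega⟩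
      have r1 := rot_apply ⟨k, by omega⟩
      have r2 := rot_apply (σ ⟨k, by omega⟩)
      unfold rot at r1 r2
      rw [r1, r2, ih (by omega) hσ] at h2
      rw [h1, h2, add_assoc]
  have key' : ∀ k : ℕ, ∀ hk : k < 14, (∀ i, σ (finRotate 14 i) = (finRotate 14).symm (σ i)) →
      σ ⟨k, hk⟩ = σ 0 - ⟨k, hk⟩ := by
    intro k
    induction k with
    | zero =>
      intro hk _
      show σ 0 = σ 0 - 0
      rw [sub_zero]
    | succ k ih =>
      intro hk hσ
      have h1 : (⟨k + 1, hk⟩ : Fin 14) = (⟨k, by omega⟩ : Fin 14) + 1 := by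
        apply Fin.ext
        rw [Fin.val_add]
        show k + 1 = (k + 1) % 14
        rw [Nat.mod_eq_of_lt hk]
      have h2 := hσ ⟨k, by omega⟩
      have r1 := rot_apply ⟨k, by omega⟩
      have r2 := rot_symm_apply (σ ⟨k, by omega⟩)
      unfold rot at r1 r2
      rw [r1, r2, ih (by omega) hσ] at h2
      rw [h1, h2, sub_sub]
  rcases h with h | h
  · exact ⟨σ 0, Or.inl fun i => key i.1 i.2 h⟩
  · exact ⟨σ 0, Or.inr fun i => key' i.1 i.2 h⟩

theorem ordinary_iff (x : Fin 14 → ℝ × ℝ) : (∀ (p : ℝ × ℝ) (i j k : Fin 14),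
    p ∈ segment ℝ (x i) (x (finRotate 14 i)) → p ∈ segment ℝ (x j) (x (finRotate 14 j)) →
    p ∈ segment ℝ (x k) (x (finRotate 14 k)) → i = j ∨ j = k ∨ i = k) ↔ Ordinary (n := 14) x := by
  have hrot : ∀ i : Fin 14, finRotate 14 i = i + 1 := rot_apply
  have he : ∀ i : Fin 14, segment ℝ (x i) (x (finRotate 14 i)) = edge (n := 14) x i := by
    intro i
    rw [hrot]
    rfl
  simp only [he]
  constructor
  · intro h p i j k hij hjk hik ⟨h1, h2, h3⟩
    rcases h p i j k h1 h2 h3 with h | h | h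
    · exact hij h
    · exact hjk h
    · exact hik h
  · intro h p i j k h1 h2 h3
    by_contra hcon
    push Not at hcon
    exact h p i j k hcon.1 hcon.2.1 hcon.2.2 ⟨h1, h2, h3⟩

theorem ord_x : ∀ (p : ℝ × ℝ) (i j k : Fin 14),
    p ∈ segment ℝ (x14 i) (x14 (finRotate 14 i)) → p ∈ segment ℝ (x14 j) (x14 (finRotate 14 j)) →
    p ∈ segment ℝ (x14 k) (x14 (finRotate 14 k)) → i = j ∨ j = k ∨ i = k :=
  (ordinary_iff x14).2 ordinaryX

theorem ord_y : ∀ (p : ℝ × ℝ) (i j k : Fin 14),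
    p ∈ segment ℝ (y14 i) (y14 (finRotate 14 i)) → p ∈ segment ℝ (y14 j) (y14 (finRotate 14 j)) →
    p ∈ segment ℝ (y14 k) (y14 (finRotate 14 k)) → i = j ∨ j = k ∨ i = k :=
  (ordinary_iff y14).2 ordinaryY

theorem prop_x : (∀ i, x14 i ≠ x14 (finRotate 14 i)) ∧
    ∀ i, ¬ Collinear ℝ ({x14 ((finRotate 14).symm i), x14 i, x14 (finRotate 14 i)} :
      Set (ℝ × ℝ)) := by
  have hrot : ∀ i : Fin 14, finRotate 14 i = i + 1 := rot_apply
  have hrot' : ∀ i : Fin 14, (finRotate 14).symm i = i - 1 := rot_symm_apply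
  refine ⟨fun i => ?_, fun i => ?_⟩
  · rw [hrot]; exact polyX i
  · rw [hrot, hrot']; exact properX i

theorem prop_y : (∀ i, y14 i ≠ y14 (finRotate 14 i)) ∧
    ∀ i, ¬ Collinear ℝ ({y14 ((finRotate 14).symm i), y14 i, y14 (finRotate 14 i)} :
      Set (ℝ × ℝ)) := by
  have hrot : ∀ i : Fin 14, finRotate 14 i = i + 1 := rot_apply
  have hrot' : ∀ i : Fin 14, (finRotate 14).symm i = i - 1 := rot_symm_apply
  refine ⟨fun i => ?_, fun i => ?_⟩
  · rw [hrot]; exact polyY i
  · rw [hrot, hrot']; exact properY i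

theorem par_xy : ∀ i : Fin 14, ∃ c : ℝ, 0 < c ∧
    y14 (finRotate 14 i) - y14 i = c • (x14 (finRotate 14 i) - x14 i) := by
  have hrot : ∀ i : Fin 14, finRotate 14 i = i + 1 := rot_apply
  intro i
  rw [hrot]
  exact parallel_xy i

theorem contra (σ : Equiv.Perm (Fin 14))
    (hσ : (∀ i, σ (finRotate 14 i) = finRotate 14 (σ i)) ∨
      (∀ i, σ (finRotate 14 i) = (finRotate 14).symm (σ i)))
    (hpar : ∀ i : Fin 14, ∃ c : ℝ, 0 < c ∧ y14 (σ (finRotate 14 i)) - y14 (σ i) =
      c • (x14 (finRotate 14 i) - x14 i))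
    (X : ℝ → Fin 14 → ℝ × ℝ) (hc : ∀ j, ContinuousOn (fun t => X t j) (Set.Icc (0:ℝ) 1))
    (h0 : X 0 = x14) (h1 : X 1 = fun i => y14 (σ i))
    (ho : ∀ t ∈ Set.Icc (0:ℝ) 1, ∀ (p : ℝ × ℝ) (i j k : Fin 14),
      p ∈ segment ℝ (X t i) (X t (finRotate 14 i)) → p ∈ segment ℝ (X t j) (X t (finRotate 14 j)) →
      p ∈ segment ℝ (X t k) (X t (finRotate 14 k)) → i = j ∨ j = k ∨ i = k)
    (hp : ∀ t ∈ Set.Icc (0:ℝ) 1, ∀ i, ∃ c : ℝ, 0 < c ∧
      X t (finRotate 14 i) - X t i = c • (x14 (finRotate 14 i) - x14 i)) : False := by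
  have hrot : ∀ i : Fin 14, finRotate 14 i = i + 1 := rot_apply
  have hrel := relabelling_of_dihedral σ hσ
  have hpar' : ParallelEdges (n := 14) xx (yy ∘ fun i => σ i) := by
    intro i
    have := hpar i
    rw [hrot] at this
    exact this
  have hyy : yy ∘ (fun i => σ i) = yy := relabelling_unique hrel hpar'
  refine no_path (P := X) hc h0 (h1.trans hyy) (fun t ht => (ordinary_iff (X t)).1 (ho t ht))
    (fun t ht i => ?_)
  have := hp t ht i
  rw [hrot] at this
  exact this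

end Run7.h114.PolyFrozen
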